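import Mathlib
import Pool.Agent.R259.Cpt3

set_option autoImplicit false

namespace Pool.Agent.Results.MP_c4a6c0_an.Counterexample

/-- The closed first quadrant. -/
def Quadrant : Set ℂ := {z | 0 ≤ z.re ∧ 0 ≤ z.im}

/-- Even entire functions taking real values on the real line. -/
def EvenRealEntire (f : ℂ → ℂ) : Prop :=
  Differentiable ℂ f ∧ (∀ z, f (-z) = f z) ∧ ∀ x : ℝ, (f x).im = 0

/-- `F` is not identically zero and has monotonic zeros in the closed first quadrant: distinct
zeros in the quadrant have distinct real parts, and the imaginary part does not decrease when the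
real part increases. -/
def MonotonicZeros (F : ℂ → ℂ) : Prop :=
  (∃ z, F z ≠ 0) ∧
    (∀ a ∈ Quadrant, ∀ b ∈ Quadrant, F a = 0 → F b = 0 → a ≠ b → a.re ≠ b.re) ∧
    ∀ a ∈ Quadrant, ∀ b ∈ Quadrant, F a = 0 → F b = 0 → a.re < b.re → a.im ≤ b.im

/-- A finite family is compatible if all its not identically zero nonnegative combinations have
monotonic zeros. -/
def Compatible {k : ℕ} (f : Fin k → ℂ → ℂ) : Prop :=
  ∀ c : Fin k → ℝ, (∀ j, 0 ≤ c j) → (∃ z, ∑ j, (c j : ℂ) * f j z ≠ 0) →
    MonotonicZeros (fun z => ∑ j, (c j : ℂ) * f j z)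

/-- A finite family is pairwise compatible if every pair of its members is compatible. -/
def PairwiseCompatible {k : ℕ} (f : Fin k → ℂ → ℂ) : Prop :=
  ∀ i j : Fin k, i < j → Compatible ![f i, f j]

/-- Pairwise compatibility does not imply compatibility: there are three even real entire functions
(polynomials of degree eight), each with monotonic zeros in the first quadrant, which are pairwise
compatible but not compatible. -/
theorem result : ∃ f : Fin 3 → ℂ → ℂ,
    (∀ j, EvenRealEntire (f j)) ∧ (∀ j, MonotonicZeros (f j)) ∧ PairwiseCompatible f ∧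
      ¬ Compatible f := by
  have conv : ∀ F : ℂ → ℂ, Pool.Agent.R259.Mono F ↔ MonotonicZeros F := by
    intro F
    constructor
    · rintro ⟨h0, h1, h2⟩
      exact ⟨h0, fun a ha b hb => h1 a b ha.1 ha.2 hb.1 hb.2,
        fun a ha b hb => h2 a b ha.1 ha.2 hb.1 hb.2⟩
    · rintro ⟨h0, h1, h2⟩
      exact ⟨h0, fun a b ha1 ha2 hb1 hb2 => h1 a ⟨ha1, ha2⟩ b ⟨hb1, hb2⟩,
        fun a b ha1 ha2 hb1 hb2 => h2 a ⟨ha1, ha2⟩ b ⟨hb1, hb2⟩⟩
  have hpair : ∀ g h : ℂ → ℂ, (∀ a c : ℝ, 0 ≤ a → 0 ≤ c →
      (∃ z, (a : ℂ) * g z + (c : ℂ) * h z ≠ 0) →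
      Pool.Agent.R259.Mono (fun z => (a : ℂ) * g z + (c : ℂ) * h z)) → Compatible ![g, h] := by
    intro g h H c hc hz
    simp only [Fin.sum_univ_two, Matrix.cons_val_zero, Matrix.cons_val_one] at hz ⊢
    exact (conv _).1 (H _ _ (hc 0) (hc 1) hz)
  refine ⟨![Pool.Agent.R259.f1, Pool.Agent.R259.f2, Pool.Agent.R259.f3], ?_, ?_, ?_, ?_⟩
  · intro j
    fin_cases j
    · exact ⟨Pool.Agent.R259.FF_diff _ _ _ _, Pool.Agent.R259.FF_even _ _ _ _,
        Pool.Agent.R259.FF_real _ _ _ _⟩
    · exact ⟨Pool.Agent.R259.FF_diff _ _ _ _, Pool.Agent.R259.FF_even _ _ _ _,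
        Pool.Agent.R259.FF_real _ _ _ _⟩
    · exact ⟨Pool.Agent.R259.FF_diff _ _ _ _, Pool.Agent.R259.FF_even _ _ _ _,
        Pool.Agent.R259.FF_real _ _ _ _⟩
  · intro j
    fin_cases j
    · exact (conv _).1 Pool.Agent.R259.m1
    · exact (conv _).1 Pool.Agent.R259.m2
    · exact (conv _).1 Pool.Agent.R259.m3
  · intro i j hij
    fin_cases i <;> fin_cases j
    · exact absurd hij (lt_irrefl _)
    · exact hpair _ _ fun a c ha hc h => Pool.Agent.R259.e01 ha hc h
    · exact hpair _ _ fun a c ha hc h => Pool.Agent.R259.e02 ha hc h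
    · exact absurd hij (by decide)
    · exact absurd hij (lt_irrefl _)
    · exact hpair _ _ fun a c ha hc h => Pool.Agent.R259.e12 ha hc h
    · exact absurd hij (by decide)
    · exact absurd hij (by decide)
    · exact absurd hij (lt_irrefl _)
  · intro H
    apply Pool.Agent.R259.center
    rw [conv]
    have h1 := H ![18 / 100, 28 / 100, 54 / 100] (by
      intro j; fin_cases j <;> norm_num)
    simp only [Fin.sum_univ_three, Matrix.cons_val_zero, Matrix.cons_val_one, Matrix.cons_val] at h1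
    apply h1
    by_contra hcon
    push Not at hcon
    have h2 := hcon 0
    unfold Pool.Agent.R259.f1 Pool.Agent.R259.f2 Pool.Agent.R259.f3 Pool.Agent.R259.FF at h2
    have h3 := congrArg Complex.re h2
    simp at h3
    norm_num at h3

end Pool.Agent.Results.MP_c4a6c0_an.Counterexample
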